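import Pool.Agent.Lib.MP_7f8c3e_co.Assembly

/-!
# Beanstalk: Jack wins from almost every odd number
-/

namespace Pool.Agent.Results.MP_7f8c3e_co.AlmostAll

/-- The odd numbers `n > 1` that do not lie in the least set of positions from which the player
to move can force a move to `1` have natural density zero. -/
theorem result :
    Filter.Tendsto (fun X : ℕ => ((Set.ncard {n : ℕ | n < X ∧ Odd n ∧ 1 < n ∧
      ¬ ∀ S : Set ℕ, (∀ m : ℕ, (∃ m' : ℕ, ((Even m ∧ m' = m / 2) ∨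
          (Odd m ∧ (m' = 3 * m + 1 ∨ m' = 3 * m - 1))) ∧
        (m' = 1 ∨ ∀ m'' : ℕ, ((Even m' ∧ m'' = m' / 2) ∨
          (Odd m' ∧ (m'' = 3 * m' + 1 ∨ m'' = 3 * m' - 1))) → m'' ≠ 1 ∧ m'' ∈ S)) → m ∈ S) →
        n ∈ S} : ℕ) : ℝ) / (X : ℝ)) Filter.atTop (nhds 0) :=
  Pool.Agent.Lib.MP7f8c3e.density_theorem

end Pool.Agent.Results.MP_7f8c3e_co.AlmostAll
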